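import Pool.Agent.Helper197.Bridge

/-!
# No natural system on the two-sphere with nonconstant potential is polynomially superintegrable

For every smooth Riemannian metric `g` and every smooth nonconstant potential `U` on `S²`, the
natural system `H = ½ |ξ|² + U` does not have three functionally independent integrals polynomial in
the momenta (not even three whose differentials are linearly independent at a single point of
`T*S²`).  In fact any two integrals polynomial in the momenta Poisson commute.

Everything is stated on Mathlib's smooth manifold `S²`, in canonical coordinates `(q, p)` of `T*S²`
induced by arbitrary smooth charts; the definitions are in `Pool.Agent.Helper197.S2Defs`.  Sanity
checks in `Pool.Agent.Helper197.Bridge`: the Hamiltonian is an integral (`natHam_integral`),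
polynomial of degree two in the momenta (`natHam_polyMom`), and smooth Riemannian metrics of Mathlib
are metrics in the sense used here (`ofMathlib`).

Idea of the proof.  Let `M = max U`, and let `D` be a connected component of `{U < M}`.  If two
polynomial integrals did not commute over `D`, then two such integrals would not commute somewhere
on the energy level `H = M` over `D` (algebraic relations on the level, and division by `H - M`).
Near such points all orbits of the level are periodic with a common period.  A wall-crossing
argument on the fibres, which are ovals carrying trigonometric polynomials, and connectivity of
nearby points by orbits show that for a fixed `T` the points `x` of `D` all of whose orbits of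
energy `M` are `T`-periodic are dense in `D`.  Close to the boundary of `D`, that is close to a
maximum of `U`, such short periodic orbits do not exist (virial argument).  So all brackets vanish
over `D`, and unique continuation along orbits of energy above `M` makes them vanish everywhere.
-/

open Manifold
open scoped ContDiff
open Pool.Agent.Helper197.S2Defs

namespace Pool.Agent.Results.MP_75a63e_an.NoSuperintegrable

/-- There is no natural system on `S²` with smooth Riemannian metric and smooth nonconstant potential
which has three functionally independent integrals polynomial in the momenta. -/
theorem result : ¬ ∃ (g : RMetric) (U : S2 → ℝ), ContMDiff (𝓡 2) 𝓘(ℝ, ℝ) ∞ U ∧
    (∃ x y : S2, U x ≠ U y) ∧ Superintegrable g U :=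
  Pool.Agent.Helper197.S2Bridge.main

end Pool.Agent.Results.MP_75a63e_an.NoSuperintegrable
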